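import Pool.Agent.N347.LA.TwinHeavy
import Pool.Agent.H931R3.LAMain

/-!
# The linear arboricity conjecture for graphs with large twin classes

`H931R3.LA.la G` is the linear arboricity (the same expression as in the frozen statement S07085).
-/

set_option autoImplicit false

namespace Pool.Agent.Results.MP_0a041d_co.LargeTwinClasses

open Finset H931R3.LA

/-- `u` and `w` have the same neighbours outside `{u, w}`: they are equal, or open twins, or closed
twins. -/
def Twin {W : Type} (G : SimpleGraph W) (u w : W) : Prop :=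
  ∀ x, x ≠ u → x ≠ w → (G.Adj u x ↔ G.Adj w x)

/-- The number of vertices of the twin class of `u`. -/
noncomputable def tau {W : Type} (G : SimpleGraph W) (u : W) : ℕ :=
  {w | Twin G u w}.ncard

/-- `u` and `w` are twins, or they are adjacent and the product of the sizes of their twin classes
is at least `2 k`. -/
def Link {W : Type} (G : SimpleGraph W) (k : ℕ) (u w : W) : Prop :=
  Twin G u w ∨ (G.Adj u w ∧ 2 * k ≤ tau G u * tau G w)

open Classical in
/-- **Linear arboricity and large twin classes.**
(a) Let all degrees of the finite graph `G` be at most `2 k - 1`, and let every connected component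
`C` of the link relation satisfy `∑ w ∈ C, (2 k - deg w) ≥ 2 k`.  Then `la G ≤ k`.
(b) Let `G` have maximum degree at most `Δ` and let `|[u]| |[v]| ≥ Δ + 2` for the twin classes of any
two adjacent vertices which are not twins.  Then `la G ≤ ⌈(Δ + 1) / 2⌉`, and there is equality if `G`
is `Δ`-regular (`Δ ≥ 1`). -/
theorem result :
    (∀ (W : Type) [Fintype W] (G : SimpleGraph W) (k : ℕ),
      (∀ v, (G.neighborSet v).ncard + 1 ≤ 2 * k) →
      (∀ v, 2 * k ≤ ∑ w ∈ univ.filter (fun w => Relation.ReflTransGen (Link G k) v w),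
        (2 * k - (G.neighborSet w).ncard)) → la G ≤ k) ∧
    (∀ (W : Type) [Finite W] (G : SimpleGraph W) (Δ : ℕ),
      (∀ v, (G.neighborSet v).ncard ≤ Δ) →
      (∀ u v, G.Adj u v → ¬ Twin G u v → Δ + 2 ≤ tau G u * tau G v) →
      la G ≤ (Δ + 2) / 2 ∧
      (Nonempty W → 0 < Δ → (∀ v, (G.neighborSet v).ncard = Δ) → la G = (Δ + 2) / 2)) := by
  refine ⟨?_, ?_⟩
  · intro W _ G k hd hz
    refine la_le (Pool.Agent.N347.LA.Tw.cov_twin G k hd fun v => (hz v).trans (le_of_eq ?_))
    exact sum_congr rfl fun _ _ => rfl
  · intro W _ G Δ hd hh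
    have h1 : Cov G ((Δ + 2) / 2) := by
      refine Pool.Agent.N347.LA.Hv.cov_heavy G _ (fun v => ?_) (fun u v h1 h2 => ?_)
      · have := hd v; omega
      · refine le_trans ?_ (hh u v h1 h2)
        omega
    refine ⟨la_le h1, fun hW hΔ hreg => le_antisymm (la_le h1) ?_⟩
    exact lower hΔ (cov_la G) hreg

end Pool.Agent.Results.MP_0a041d_co.LargeTwinClasses
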