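import Pool.Agent.N319.LQ.Top
import Pool.Agent.N226.LL.Main
import Pool.Agent.N226.LL.Sparse

set_option autoImplicit false

/-!
# The linear arboricity conjecture for locally sparse graphs, almost all lifts and almost all graphs of
bounded degree, all degrees

`H931R3.LA.la G` is the linear arboricity (the same expression as in the frozen statement S07085).
-/

namespace Pool.Agent.Results.MP_0a041d_co.LocallySparseGraphs

open SimpleGraph H931R3.LA

/-- The graph `G` satisfies the linear arboricity conjecture with the bound `Δ` for its degrees: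
`la G ≤ ⌈(Δ + 1) / 2⌉`, with equality if `G` is `Δ`-regular, `Δ ≥ 1` (and `G` is not empty). -/
def Good {V : Type} (G : SimpleGraph V) (Δ : ℕ) : Prop :=
  la G ≤ (Δ + 2) / 2 ∧
    (0 < Δ → Nonempty V → (∀ v, (G.neighborSet v).ncard = Δ) → la G = (Δ + 2) / 2)

/-- The `N`-lift, given by the permutations `π i` of `Fin N`, of the multigraph with vertex set `B`,
edge set `I` and the edge `i` joining `src i` and `tgt i`: the vertices are the pairs `(b, x)`, and
for every edge `i` and every `x` the vertices `(src i, x)` and `(tgt i, π i x)` are joined (loops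
and multiple edges of the lift are ignored). -/
def Lift {B I : Type} {N : ℕ} (src tgt : I → B) (π : I → Equiv.Perm (Fin N)) :
    SimpleGraph (B × Fin N) where
  Adj p q := p ≠ q ∧ ∃ i, (src i = p.1 ∧ tgt i = q.1 ∧ π i p.2 = q.2) ∨
    (src i = q.1 ∧ tgt i = p.1 ∧ π i q.2 = p.2)
  symm.symm := fun _ _ h => ⟨h.1.symm, h.2.imp fun _ he => he.symm⟩
  loopless.irrefl := fun _ h => h.1 rfl

theorem lift_eq {B I : Type} {N : ℕ} (src tgt : I → B) (π : I → Equiv.Perm (Fin N)) :
    Lift src tgt π = Pool.Agent.Y573.GL.lift src tgt π := by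
  ext p q
  rw [Pool.Agent.Y573.GL.lift, SimpleGraph.fromRel_adj]
  constructor
  · rintro ⟨hne, i, ⟨h1, h2, h3⟩ | ⟨h1, h2, h3⟩⟩
    · exact ⟨hne, Or.inl ⟨i, h1.symm, h2.symm, h3.symm⟩⟩
    · exact ⟨hne, Or.inr ⟨i, h1.symm, h2.symm, h3.symm⟩⟩
  · rintro ⟨hne, ⟨i, h1, h2, h3⟩ | ⟨i, h1, h2, h3⟩⟩
    · exact ⟨hne, i, Or.inl ⟨h1.symm, h2.symm, h3.symm⟩⟩
    · exact ⟨hne, i, Or.inr ⟨h1.symm, h2.symm, h3.symm⟩⟩

/-- Even degrees (helper226). -/
theorem even_degrees :
    (∀ (V : Type) [Finite V] (G : SimpleGraph V) (k : ℕ), 0 < k →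
      (∀ v, (G.neighborSet v).ncard ≤ 2 * k) →
      (∀ S : Set V, S.ncard ≤ 12 * k →
        {p : V × V | p.1 ∈ S ∧ p.2 ∈ S ∧ G.Adj p.1 p.2}.ncard ≤ 2 * S.ncard) →
      la G ≤ k + 1 ∧
      (Nonempty V → (∀ v, (G.neighborSet v).ncard = 2 * k) → la G = k + 1)) ∧
    (∀ (V E : Type) [Finite V] [Finite E] (src tgt : E → V) (k N : ℕ), 0 < k → 0 < N →
      (∀ v, {e | src e = v}.ncard + {e | tgt e = v}.ncard ≤ 2 * k) →
      ({π : E → Equiv.Perm (Fin N) | ¬ (la (Lift src tgt π) ≤ k + 1 ∧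
        (Nonempty V → (∀ x, ((Lift src tgt π).neighborSet x).ncard = 2 * k) →
          la (Lift src tgt π) = k + 1))}.ncard : ℝ) ≤
        72 * (k : ℝ) ^ 4 * Nat.card V / N * Nat.card (E → Equiv.Perm (Fin N))) := by
  classical
  refine ⟨?_, ?_⟩
  · intro V _ G k hk hdeg hsp
    have h := Pool.Agent.N226.LL.cov_sparse G hk hdeg hsp
    refine ⟨la_le h, fun hV hreg => ?_⟩
    have h1 : k + 1 = (2 * k + 2) / 2 := by omega
    rw [h1] at h ⊢
    exact Pool.Agent.W111.LAR.la_eq_of_cov (by omega) hreg h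
  · intro V E _ _ src tgt k N hk hN hdeg
    have := Fintype.ofFinite V
    have := Fintype.ofFinite E
    have hc := Pool.Agent.N226.LL.count src tgt k N hk (by
      intro v
      have := hdeg v
      rw [Set.ncard_eq_toFinset_card', Set.ncard_eq_toFinset_card', Set.toFinset_ofPred,
        Set.toFinset_ofPred] at this
      convert this)
    have hsub : {π : E → Equiv.Perm (Fin N) | ¬ (la (Lift src tgt π) ≤ k + 1 ∧
        (Nonempty V → (∀ x, ((Lift src tgt π).neighborSet x).ncard = 2 * k) →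
          la (Lift src tgt π) = k + 1))} ⊆
        {π | ¬ Cov (Pool.Agent.N226.LL.lift src tgt π) (k + 1)} := by
      intro π hπ hcov
      apply hπ
      have hcov' : Cov (Lift src tgt π) (k + 1) := hcov
      refine ⟨la_le hcov', fun hV hreg => ?_⟩
      have : Nonempty (V × Fin N) := ⟨(hV.some, ⟨0, hN⟩)⟩
      have h1 : k + 1 = (2 * k + 2) / 2 := by omega
      rw [h1] at hcov' ⊢
      exact Pool.Agent.W111.LAR.la_eq_of_cov (by omega) hreg hcov'
    have h1 := Set.ncard_le_ncard hsub (Set.toFinite _)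
    rw [Set.ncard_eq_toFinset_card' {π | ¬ Cov (Pool.Agent.N226.LL.lift src tgt π) (k + 1)},
      Set.toFinset_ofPred] at h1
    have h2 : {π : E → Equiv.Perm (Fin N) | ¬ (la (Lift src tgt π) ≤ k + 1 ∧
        (Nonempty V → (∀ x, ((Lift src tgt π).neighborSet x).ncard = 2 * k) →
          la (Lift src tgt π) = k + 1))}.ncard * N ≤
        72 * k ^ 4 * Nat.card V * Nat.card (E → Equiv.Perm (Fin N)) := by
      rw [Nat.card_eq_fintype_card, Nat.card_eq_fintype_card]
      refine (Nat.mul_le_mul_right N h1).trans ?_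
      convert hc
    have hN' : (0 : ℝ) < N := by exact_mod_cast hN
    rw [div_mul_eq_mul_div, le_div_iff₀ hN']
    exact_mod_cast h2

/-- Almost all graphs with a given degree sequence, and of bounded degree. -/
theorem almost_all_graphs (Δ : ℕ) : ∃ C : ℕ,
    (∀ (n : ℕ) (d : Fin n → ℕ), (∀ v, d v ≤ Δ) →
      (∑ v, d v) * {G : SimpleGraph (Fin n) | (∀ v, (G.neighborSet v).ncard = d v) ∧
        ¬ Good G Δ}.ncard ≤
      C * {G : SimpleGraph (Fin n) | ∀ v, (G.neighborSet v).ncard = d v}.ncard) ∧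
    (∀ n : ℕ,
      n * {G : SimpleGraph (Fin n) | (∀ v, (G.neighborSet v).ncard ≤ Δ) ∧ ¬ Good G Δ}.ncard ≤
      C * {G : SimpleGraph (Fin n) | ∀ v, (G.neighborSet v).ncard ≤ Δ}.ncard) := by
  classical
  obtain ⟨B, _, hB⟩ := Pool.Agent.N319.LQ.degseqK Δ ((Δ + 1) ^ 7) 1
  obtain ⟨B', _, hB'⟩ := Pool.Agent.N319.LQ.all_graphsK Δ ((Δ + 1) ^ 7) 1 le_rfl
  refine ⟨max ⌈B⌉₊ ⌈B'⌉₊, fun n d hd => ?_, fun n => ?_⟩
  · refine le_trans (Nat.mul_le_mul_left _ (Set.ncard_le_ncard ?_ (Set.toFinite _)))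
      ((Pool.Agent.N319.LQ.nat_of_real (hB n d hd)).trans
        (Nat.mul_le_mul_right _ (le_max_left _ _)))
    rintro G ⟨hG, hbad⟩
    refine ⟨hG, ?_⟩
    by_contra hK
    apply hbad
    refine Pool.Agent.N319.LQ.all_of_sparse G Δ (fun v => by rw [hG v]; exact hd v) ?_
    by_contra hsp
    exact hK (Pool.Agent.N319.LQ.denseK_of_not_sparse G _ hsp)
  · refine le_trans (Nat.mul_le_mul_left _ (Set.ncard_le_ncard ?_ (Set.toFinite _)))
      ((Pool.Agent.N319.LQ.nat_of_real (hB' n)).trans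
        (Nat.mul_le_mul_right _ (le_max_right _ _)))
    rintro G ⟨hG, hbad⟩
    refine ⟨hG, ?_⟩
    by_contra hK
    apply hbad
    refine Pool.Agent.N319.LQ.all_of_sparse G Δ hG ?_
    by_contra hsp
    exact hK (Pool.Agent.N319.LQ.denseK_of_not_sparse G _ hsp)

/-- **The linear arboricity conjecture for locally sparse graphs and for almost all lifts.**
Let `Δ` be a natural number.

(a) Every finite graph of maximum degree at most `Δ` in which every set `S` of at most
`(Δ + 1) ^ 7` vertices spans at most `|S|` edges satisfies the conjecture.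
(b) For every finite multigraph `(B, I, src, tgt)` (loops and multiple edges allowed) of maximum
degree at most `Δ`, a loop being counted twice, all but the proportion `O(1 / N)` of its
`(N!) ^ |I|` lifts of order `N` satisfy the conjecture.

Let `Δ = 2 k` be even, `k ≥ 1`.  (c) In (a) it suffices that every set `S` of at most `12 k` vertices
spans at most `|S|` edges (at most `2 |S|` ordered pairs of adjacent vertices).
(d) In (b) the proportion of the exceptional lifts is at most `72 k ^ 4 |B| / N`.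

There is a constant `C` such that (e) for every `n` and every degree sequence `d` with entries at
most `Δ` and sum `M`, all but the proportion `C / M` of the graphs with vertex set `Fin n` and
degree sequence `d` satisfy the conjecture, and (f) for every `n`, all but the proportion `C / n` of
the graphs with vertex set `Fin n` of maximum degree at most `Δ` satisfy the conjecture. -/
theorem result (Δ : ℕ) :
    (∀ (V : Type) [Finite V] (G : SimpleGraph V), (∀ v, (G.neighborSet v).ncard ≤ Δ) →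
      (∀ S : Set V, S.ncard ≤ (Δ + 1) ^ 7 →
        {e : Sym2 V | e ∈ G.edgeSet ∧ ∀ x ∈ e, x ∈ S}.ncard ≤ S.ncard) → Good G Δ) ∧
    (∀ (B I : Type) [Finite B] [Finite I] (src tgt : I → B),
      (∀ b, {i | src i = b}.ncard + {i | tgt i = b}.ncard ≤ Δ) →
      ∃ C : ℕ, ∀ N : ℕ, N * {π : I → Equiv.Perm (Fin N) | ¬ Good (Lift src tgt π) Δ}.ncard ≤
        C * N.factorial ^ Nat.card I) ∧
    (∀ k : ℕ, 0 < k → Δ = 2 * k →
      (∀ (V : Type) [Finite V] (G : SimpleGraph V), (∀ v, (G.neighborSet v).ncard ≤ Δ) →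
        (∀ S : Set V, S.ncard ≤ 12 * k →
          {p : V × V | p.1 ∈ S ∧ p.2 ∈ S ∧ G.Adj p.1 p.2}.ncard ≤ 2 * S.ncard) → Good G Δ) ∧
      (∀ (B I : Type) [Finite B] [Finite I] (src tgt : I → B),
        (∀ b, {i | src i = b}.ncard + {i | tgt i = b}.ncard ≤ Δ) → ∀ N : ℕ, 0 < N →
        ({π : I → Equiv.Perm (Fin N) | ¬ Good (Lift src tgt π) Δ}.ncard : ℝ) ≤
          72 * (k : ℝ) ^ 4 * Nat.card B / N * Nat.card (I → Equiv.Perm (Fin N)))) ∧
    ∃ C : ℕ,
      (∀ (n : ℕ) (d : Fin n → ℕ), (∀ v, d v ≤ Δ) →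
        (∑ v, d v) * {G : SimpleGraph (Fin n) | (∀ v, (G.neighborSet v).ncard = d v) ∧
          ¬ Good G Δ}.ncard ≤
        C * {G : SimpleGraph (Fin n) | ∀ v, (G.neighborSet v).ncard = d v}.ncard) ∧
      (∀ n : ℕ,
        n * {G : SimpleGraph (Fin n) | (∀ v, (G.neighborSet v).ncard ≤ Δ) ∧ ¬ Good G Δ}.ncard ≤
        C * {G : SimpleGraph (Fin n) | ∀ v, (G.neighborSet v).ncard ≤ Δ}.ncard) := by
  classical
  refine ⟨?_, ?_, ?_, almost_all_graphs Δ⟩
  · intro V _ G hdeg hsp
    have := Fintype.ofFinite V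
    refine Pool.Agent.N319.LQ.all_of_sparse G Δ hdeg ?_
    intro S E hS hE
    have h1 := hsp (S : Set V) (by rw [Set.ncard_coe_finset]; exact hS)
    rw [Set.ncard_coe_finset] at h1
    refine le_trans ?_ h1
    rw [← Set.ncard_coe_finset]
    exact Set.ncard_le_ncard (fun e he => ⟨(hE e he).1, (hE e he).2⟩) (Set.toFinite _)
  · intro B I _ _ src tgt hdeg
    have := Fintype.ofFinite B
    have := Fintype.ofFinite I
    obtain ⟨C, hC⟩ := Pool.Agent.N319.LQ.lift_sparse B I src tgt ((Δ + 1) ^ 7)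
    refine ⟨C, fun N => ?_⟩
    rw [Nat.card_eq_fintype_card]
    refine le_trans (Nat.mul_le_mul_left _ (Set.ncard_le_ncard ?_ (Set.toFinite _))) (hC N)
    intro π hπ hsp
    apply hπ
    rw [lift_eq src tgt π]
    exact Pool.Agent.N319.LQ.all_of_sparse _ Δ
      (fun v => Pool.Agent.Y573.GL.lift_deg src tgt hdeg π v) hsp
  · rintro k hk rfl
    have e2 : (2 * k + 2) / 2 = k + 1 := by omega
    refine ⟨fun V _ G hdeg hsp => ?_, fun B I _ _ src tgt hdeg N hN => ?_⟩
    · obtain ⟨h1, h2⟩ := even_degrees.1 V G k hk hdeg hsp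
      exact ⟨by rw [e2]; exact h1, fun _ hV hr => by rw [e2]; exact h2 hV hr⟩
    · refine le_trans ?_ (even_degrees.2 B I src tgt k N hk hN hdeg)
      refine Nat.cast_le.2 (Set.ncard_le_ncard ?_ (Set.toFinite _))
      intro π hπ hg
      refine hπ ⟨by rw [e2]; exact hg.1, fun _ hV hr => ?_⟩
      rw [e2]
      exact hg.2 ⟨hV.some.1⟩ hr

end Pool.Agent.Results.MP_0a041d_co.LocallySparseGraphs
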