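import Pool.Agent.N347.LB.TopOdd
import Pool.Agent.N427.LB_GIR

/-!
# The linear arboricity conjecture for blow-ups by sets of logarithmic size

`H931R3.LA.la G` is the linear arboricity (the same expression as in the frozen statement S07085).
-/

set_option autoImplicit false

namespace Pool.Agent.Results.MP_0a041d_co.LogarithmicBlowups

open H931R3.LA

/-- **Linear arboricity of blow-ups.**  Let `H` be a finite graph of maximum degree at most `d`, and
let `G` be obtained from `H` by replacing the vertices by independent sets (`c = false`) or by cliques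
(`c = true`) of size `m`, so that the maximum degree of `G` is at most `r = d m` or `r = d m + m - 1`.
Suppose that `m ≥ 25 log₂ d`, or else that `c = false`, `m ≥ 4`, `H` is `d`-regular, `d ≥ 6`, and all
cycles of `H` are longer than `2 h` for some `h` with `2 ^ h > d`.  If `r` is even, then
`la G ≤ r / 2 + 1 = ⌈(r + 1) / 2⌉`, with equality if `H` is `d`-regular and `r > 0`.  If `r` is odd and
`m ≥ 25 log₂ d`, then `la G ≤ (r + 3) / 2 = ⌈(r + 1) / 2⌉ + 1`. -/
theorem result :
    ∀ (V W : Type) [Finite V] [Finite W] (H : SimpleGraph V) (c : Bool) (d m r : ℕ),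
      1 ≤ m → (∀ v, (H.neighborSet v).ncard ≤ d) → (r = d * m + if c then m - 1 else 0) →
      (d ^ 25 ≤ 2 ^ m ∨ (c = false ∧ 4 ≤ m ∧ 6 ≤ d ∧ (∀ v, (H.neighborSet v).ncard = d) ∧
        ∃ h, d < 2 ^ h ∧ ∀ (v : V) (p : H.Walk v v), p.IsCycle → 2 * h + 1 ≤ p.length)) →
      ∀ (f : W → V), (∀ v, {x | f x = v}.ncard = m) → ∀ (G : SimpleGraph W),
      (∀ x y, G.Adj x y ↔ x ≠ y ∧ (H.Adj (f x) (f y) ∨ (f x = f y ∧ c = true))) →
      (∀ x, (G.neighborSet x).ncard ≤ r) ∧
      (Even r → la G ≤ (r + 2) / 2 ∧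
        (Nonempty V → (∀ v, (H.neighborSet v).ncard = d) → 0 < r →
          (∀ x, (G.neighborSet x).ncard = r) ∧ la G = (r + 2) / 2)) ∧
      (Odd r → d ^ 25 ≤ 2 ^ m → la G ≤ (r + 3) / 2) := by
  intro V W _ _ H c d m r hm hH hr hyp f hf G hG
  have hdeg := Pool.Agent.N347.LB.deg_blow H c m f hf G hG
  refine ⟨fun x => ?_, fun he => ?_, fun ho hd => ?_⟩
  · rw [hdeg, hr]
    exact Nat.add_le_add_right (Nat.mul_le_mul_right _ (hH _)) _
  · obtain ⟨n, hn⟩ := he
    have h2 : (r + 2) / 2 = n + 1 := by omega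
    have hcov : Cov G ((r + 2) / 2) := by
      rw [h2]
      rcases hyp with hd | ⟨hc, hm4, hd6, hreg, h, hh, hg⟩
      · exact Pool.Agent.N347.LB.cov_log H c d m n hm hH (by omega) hd f hf G hG
      · subst hc
        have h3 : r = d * m := by rw [hr]; simp
        have h4 : G = H.comap f := by
          ext x y
          rw [hG]
          simp only [SimpleGraph.comap_adj, Bool.false_eq_true, and_false, or_false]
          exact ⟨fun h => h.2, fun h => ⟨fun hxy => by subst hxy; exact h.ne rfl, h⟩⟩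
        have h5 := Pool.Agent.N427.LBGIR.girth_main H d m h hm4 hd6 hreg ⟨n, by omega⟩ hg hh f hf
        rw [h4]
        have h6 : d * m / 2 + 1 = n + 1 := by omega
        rw [← h6]
        exact h5
    refine ⟨la_le hcov, fun hV hreg hr0 => ?_⟩
    have hGreg : ∀ x, (G.neighborSet x).ncard = r := fun x => by rw [hdeg, hreg, hr]
    refine ⟨hGreg, le_antisymm (la_le hcov) ?_⟩
    have hW : Nonempty W := by
      obtain ⟨v⟩ := hV
      have h2 : 0 < {x | f x = v}.ncard := by rw [hf]; exact hm
      obtain ⟨x, _⟩ := (Set.ncard_pos (Set.toFinite _)).1 h2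
      exact ⟨x⟩
    exact lower hr0 (cov_la G) hGreg
  · obtain ⟨n, hn⟩ := ho
    have h2 : (r + 3) / 2 = (n + 1) + 1 := by omega
    rw [h2]
    exact la_le (Pool.Agent.N347.LB.cov_log_odd H c d m (n + 1) hm hH (by omega) hd f hf G hG)

end Pool.Agent.Results.MP_0a041d_co.LogarithmicBlowups
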